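import Mathlib
import Pool.Agent.V1130.BalE
import Pool.Agent.H931R3.Bal14

/-!
# Minimal balance constants of posets with symmetries, by width

`prob`, `balance` and the width are as in the problem.  Call a finite poset symmetric if it, or one of
its autonomous subsets, has an automorphism which is not the identity.  A symmetric poset of width `w`
has balance constant at least `(1 - 1/p)^(p-1)` for some prime `p ≤ w`, hence at least
`(1 - 1/w)^(w-1)`, which is larger than `1/e` and than `δ_2 = 1/3`; for width two it is `1/2`.  So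
`δ_w`, whenever it is smaller than `(1 - 1/w)^(w-1)`, is the infimum over the posets of width `w`
which are not symmetric, and within the class of symmetric posets the minimal balance constants do not
grow from width two to any larger width.

The inequality for the orbit of an automorphism is the one of
`Pool.Agent.Results.MP_33fb9b_co.AutomorphismGap`.
-/

set_option autoImplicit false

namespace Pool.Agent.Results.MP_c890a7_co.SymmetricByWidth

open Pool.Agent.H13R3.WB Pool.Agent.H931R3.Bal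

/-- some autonomous subset of `P` (for instance `P` itself) has an automorphism which is not the
identity -/
def Symmetric (P : Type) [PartialOrder P] : Prop :=
  ∃ M : Set P, Autonomous M ∧ ∃ (α : M ≃o M) (x : M), α x ≠ x

/-- the infimum `δ_w` of the balance constants of the finite posets of width `w` -/
noncomputable def dAll (w : ℕ) : ℝ :=
  sInf {d : ℝ | ∃ (P : Type) (_ : Fintype P) (_ : PartialOrder P), HasWidth P w ∧ balance P = d}

/-- the infimum of the balance constants of the symmetric finite posets of width `w` -/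
noncomputable def dSym (w : ℕ) : ℝ :=
  sInf {d : ℝ | ∃ (P : Type) (_ : Fintype P) (_ : PartialOrder P), HasWidth P w ∧ Symmetric P ∧
    balance P = d}

/-- the infimum of the balance constants of the finite posets of width `w` which are not symmetric -/
noncomputable def dRig (w : ℕ) : ℝ :=
  sInf {d : ℝ | ∃ (P : Type) (_ : Fintype P) (_ : PartialOrder P), HasWidth P w ∧ ¬ Symmetric P ∧
    balance P = d}

lemma pow_coe {P : Type} [PartialOrder P] (α : P ≃o P) (n : ℕ) (x : P) :
    (α ^ n) x = (⇑α)^[n] x := by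
  induction n with
  | zero => rfl
  | succ n ih => rw [pow_succ', Function.iterate_succ_apply', ← ih]; rfl

lemma frac (k : ℕ) : ((k : ℝ) / ((k : ℝ) + 1)) ^ k =
    (1 - 1 / ((k + 1 : ℕ) : ℝ)) ^ (k + 1 - 1) := by
  rw [Nat.add_sub_cancel]
  congr 1
  push_cast
  have : (k : ℝ) + 1 ≠ 0 := by positivity
  field_simp
  ring

lemma step (k : ℕ) (hk : 1 ≤ k) :
    ((k + 1 : ℝ) / ((k : ℝ) + 2)) ^ (k + 1) ≤ ((k : ℝ) / ((k : ℝ) + 1)) ^ k := by
  have hk0 : (0 : ℝ) < k := by exact_mod_cast hk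
  set b : ℝ := (k : ℝ) / (k + 1) with hb
  set a : ℝ := (k + 1 : ℝ) / (k + 2) with ha
  have ha0 : 0 < a := by positivity
  have hb0 : 0 < b := by positivity
  have h1 : b = (1 + -(1 / ((k : ℝ) + 1) ^ 2)) * a := by
    rw [hb, ha]
    field_simp
    ring
  have h2 : 1 + ((k + 1 : ℕ) : ℝ) * -(1 / ((k : ℝ) + 1) ^ 2) ≤
      (1 + -(1 / ((k : ℝ) + 1) ^ 2)) ^ (k + 1) := by
    apply one_add_mul_le_pow
    have : 1 / ((k : ℝ) + 1) ^ 2 ≤ 1 := by
      rw [div_le_one (by positivity)]
      nlinarith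
    linarith
  have h3 : 1 + ((k + 1 : ℕ) : ℝ) * -(1 / ((k : ℝ) + 1) ^ 2) = b := by
    rw [hb]
    push_cast
    field_simp
    ring
  rw [h3] at h2
  have h4 : b * a ^ (k + 1) ≤ b * b ^ k := by
    calc b * a ^ (k + 1) ≤ (1 + -(1 / ((k : ℝ) + 1) ^ 2)) ^ (k + 1) * a ^ (k + 1) :=
          mul_le_mul_of_nonneg_right h2 (by positivity)
      _ = b ^ (k + 1) := by rw [← mul_pow, ← h1]
      _ = b * b ^ k := by rw [pow_succ]; ring
  exact le_of_mul_le_mul_left h4 hb0

lemma anti {m w : ℕ} (hm : 2 ≤ m) (hmw : m ≤ w) :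
    (1 - 1 / (w : ℝ)) ^ (w - 1) ≤ (1 - 1 / (m : ℝ)) ^ (m - 1) := by
  induction w, hmw using Nat.le_induction with
  | base => exact le_rfl
  | succ w hw ih =>
    refine le_trans ?_ ih
    obtain ⟨k, rfl⟩ : ∃ k, w = k + 1 := ⟨w - 1, by omega⟩
    have h := step k (by omega)
    rw [frac k] at h
    have h5 := frac (k + 1)
    rw [← h5]
    have h6 : (((k + 1 : ℕ) : ℝ) / (((k + 1 : ℕ) : ℝ) + 1)) = (k + 1 : ℝ) / ((k : ℝ) + 2) := by
      push_cast
      ring
    rw [h6]
    exact h

lemma exp_lt (w : ℕ) (hw : 2 ≤ w) : Real.exp (-1) < (1 - 1 / (w : ℝ)) ^ (w - 1) := by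
  obtain ⟨k, rfl⟩ : ∃ k, w = k + 1 := ⟨w - 1, by omega⟩
  rw [← frac k]
  have hk0 : (0 : ℝ) < k := by exact_mod_cast (show 0 < k by omega)
  have h1 : (1 : ℝ) / k + 1 < Real.exp (1 / k) := Real.add_one_lt_exp (by positivity)
  have h2 : ((1 : ℝ) / k + 1) ^ k < Real.exp 1 := by
    calc ((1 : ℝ) / k + 1) ^ k < (Real.exp (1 / k)) ^ k :=
          pow_lt_pow_left₀ h1 (by positivity) (by omega)
      _ = Real.exp 1 := by
          rw [← Real.exp_nat_mul]
          congr 1
          field_simp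
  have h3 : ((k : ℝ) / ((k : ℝ) + 1)) ^ k = (((1 : ℝ) / k + 1) ^ k)⁻¹ := by
    rw [← inv_pow]
    congr 1
    field_simp
    ring
  rw [h3, Real.exp_neg]
  exact inv_strictAnti₀ (by positivity) h2

lemma third_lt : (1 : ℝ) / 3 < Real.exp (-1) := by
  have h1 : Real.exp 1 < 2.7182818286 := Real.exp_one_lt_d9
  rw [Real.exp_neg, lt_inv_comm₀ (by norm_num) (Real.exp_pos 1)]
  refine h1.trans (by norm_num)

/-- the orbit of a point under an automorphism is an antichain -/
lemma orbit_anti {P : Type} [Finite P] [PartialOrder P] (α : P ≃o P) (x : P) (i j : ℕ)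
    (h : (⇑α)^[i] x ≤ (⇑α)^[j] x) : (⇑α)^[i] x = (⇑α)^[j] x := by
  classical
  have hfin : Finite (P ≃o P) := Finite.of_injective (fun α : P ≃o P => (α : P → P))
    DFunLike.coe_injective
  have hcyc : ∀ γ : P ≃o P, ∃ N : ℕ, 1 ≤ N ∧ ∀ y, (⇑γ)^[N] y = y := by
    intro γ
    obtain ⟨N, hN, hN1⟩ := isOfFinOrder_iff_pow_eq_one.1 (isOfFinOrder_of_finite γ)
    refine ⟨N, hN, fun y => ?_⟩
    rw [← pow_coe, hN1]
    rfl
  have up : ∀ (γ : P ≃o P) (y : P), y ≤ γ y → y = γ y := by
    intro γ y hy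
    obtain ⟨N, hN, hN1⟩ := hcyc γ
    have h1 := γ.monotone.monotone_iterate_of_le_map hy hN
    simp only [Function.iterate_one, hN1] at h1
    exact le_antisymm hy h1
  have dn : ∀ (γ : P ≃o P) (y : P), γ y ≤ y → γ y = y := by
    intro γ y hy
    obtain ⟨N, hN, hN1⟩ := hcyc γ
    have h1 := γ.monotone.antitone_iterate_of_map_le hy hN
    simp only [Function.iterate_one, hN1] at h1
    exact le_antisymm hy h1
  rcases le_total i j with hij | hij
  · obtain ⟨d, rfl⟩ := Nat.exists_eq_add_of_le hij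
    rw [add_comm, Function.iterate_add_apply, ← pow_coe α d] at h ⊢
    exact up _ _ h
  · obtain ⟨d, rfl⟩ := Nat.exists_eq_add_of_le hij
    rw [add_comm, Function.iterate_add_apply, ← pow_coe α d] at h ⊢
    exact dn _ _ h

/-- a prime `p` at most the width with `(1 - 1/p)^(p-1) ≤ balance` -/
lemma exists_prime {P : Type} [Fintype P] [PartialOrder P] (w : ℕ) (hw : HasWidth P w)
    (hs : Symmetric P) : ∃ p : ℕ, p.Prime ∧ p ≤ w ∧ (1 - 1 / (p : ℝ)) ^ (p - 1) ≤ balance P := by
  classical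
  obtain ⟨M, hM, α, x, hx⟩ := hs
  have hne : Nonempty M := ⟨x⟩
  set m := Function.minimalPeriod α x with hm
  have hpos : 0 < m :=
    Function.minimalPeriod_pos_of_mem_periodicPts (α.injective.mem_periodicPts x)
  have hm1 : m ≠ 1 := fun h => hx (Function.minimalPeriod_eq_one_iff_isFixedPt.1 h)
  obtain ⟨p, hp, hpm⟩ := Nat.exists_prime_and_dvd hm1
  obtain ⟨q, hq⟩ := hpm
  have hq0 : q ≠ 0 := by
    rintro rfl
    omega
  set β : M ≃o M := α ^ q with hβ
  have hβc : (⇑β) = (⇑α)^[q] := by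
    funext y
    rw [hβ, pow_coe]
  have hper : Function.minimalPeriod β x = p := by
    rw [hβc, Function.minimalPeriod_iterate_eq_div_gcd hq0, ← hm, hq]
    rw [Nat.gcd_eq_right (Dvd.intro_left p rfl)]
    exact Nat.mul_div_cancel p (Nat.pos_of_ne_zero hq0)
  -- the orbit has at most `w` elements
  have hpw : p ≤ w := by
    have hinj : Set.InjOn (fun i => (⇑β)^[i] x) (Set.Iio p) := by
      have := Function.iterate_injOn_Iio_minimalPeriod (f := β) (x := x)
      rwa [hper] at this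
    let s : Finset P := (Finset.range p).image fun i => (((⇑β)^[i] x : M) : P)
    have hcard : s.card = p := by
      rw [Finset.card_image_of_injOn, Finset.card_range]
      intro i hi j hj hij
      simp only [Finset.coe_range] at hi hj
      exact hinj hi hj (Subtype.ext hij)
    rw [← hcard]
    apply hw.2
    intro a ha b hb hab hle
    simp only [s, Finset.coe_image, Set.mem_image, Finset.mem_coe, Finset.mem_range] at ha hb
    obtain ⟨i, -, rfl⟩ := ha
    obtain ⟨j, -, rfl⟩ := hb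
    exact hab (congrArg Subtype.val (orbit_anti β x i j hle))
  refine ⟨p, hp, hpw, ?_⟩
  obtain ⟨k, rfl⟩ : ∃ k, p = k + 1 := ⟨p - 1, by have := hp.two_le; omega⟩
  have hk : 1 ≤ k := by have := hp.two_le; omega
  obtain ⟨h1, h2⟩ := Pool.Agent.V1130.Bal.orbit_prob β x k hk hper
  rw [frac k] at h1 h2
  exact ((le_min h1 h2).trans (le_balance x (β x))).trans (balance_autonomous hM)

lemma balance_le_half {P : Type} [Fintype P] [PartialOrder P] [Nonempty P] :
    balance P ≤ 1 / 2 := by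
  unfold balance
  apply ciSup_le
  rintro ⟨x, y⟩
  by_cases hxy : x = y
  · subst hxy
    have : prob P x x = 0 := by
      unfold prob
      have : IsEmpty {f : P ≃ Fin (Fintype.card P) // Monotone f ∧ f x < f x} :=
        ⟨fun f => lt_irrefl _ f.2.2⟩
      rw [Nat.card_of_isEmpty]
      simp
    simp only [this, min_self]
    norm_num
  · have := prob_add hxy
    rcases le_total (prob P x y) (prob P y x) with h | h
    · exact (min_le_left _ _).trans (by simp only; linarith)
    · exact (min_le_right _ _).trans (by simp only; linarith)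

lemma nonempty_of_width {P : Type} [PartialOrder P] {w : ℕ} (hw0 : 1 ≤ w) (hw : HasWidth P w) :
    Nonempty P := by
  obtain ⟨s, -, hs⟩ := hw.1
  obtain ⟨x, -⟩ := Finset.card_pos.1 (show 0 < s.card by omega)
  exact ⟨x⟩

lemma ge_pow {P : Type} [Fintype P] [PartialOrder P] (w : ℕ) (hw : HasWidth P w)
    (hs : Symmetric P) : (1 - 1 / (w : ℝ)) ^ (w - 1) ≤ balance P := by
  obtain ⟨p, hp, hpw, h⟩ := exists_prime w hw hs
  exact (anti hp.two_le hpw).trans h

lemma eq_half {P : Type} [Fintype P] [PartialOrder P] (hw : HasWidth P 2)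
    (hs : Symmetric P) : balance P = 1 / 2 := by
  have : Nonempty P := nonempty_of_width (by norm_num) hw
  refine le_antisymm balance_le_half ?_
  have h := ge_pow 2 hw hs
  norm_num at h ⊢
  exact h

/-- an antichain of `w ≥ 2` elements is symmetric of width `w` -/
lemma exists_sym (w : ℕ) (hw : 2 ≤ w) : ∃ (P : Type) (_ : Fintype P) (_ : PartialOrder P),
    HasWidth P w ∧ Symmetric P := by
  classical
  obtain ⟨P, i1, i2, -, h2, h3⟩ := exists_anti (w - 1)
  refine ⟨P, i1, i2, ⟨⟨Finset.univ, ?_, ?_⟩, ?_⟩, Set.univ, ?_, ?_⟩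
  · intro x _ y _ hxy h
    exact hxy (h3 x y h)
  · rw [Finset.card_univ, h2]; omega
  · intro s _
    have := Finset.card_le_univ s
    omega
  · intro x _ y _ z hz
    exact absurd (Set.mem_univ z) hz
  · have hc : 1 < Fintype.card P := by omega
    obtain ⟨a, b, hab⟩ := Fintype.exists_pair_of_one_lt_card hc
    let e : (Set.univ : Set P) ≃ (Set.univ : Set P) :=
      Equiv.swap ⟨a, Set.mem_univ a⟩ ⟨b, Set.mem_univ b⟩
    refine ⟨⟨e, ?_⟩, ⟨a, Set.mem_univ a⟩, ?_⟩
    · intro u v
      constructor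
      · intro h
        have : e u = e v := Subtype.ext (h3 _ _ h)
        rw [e.injective this]
      · intro h
        have : u = v := Subtype.ext (h3 _ _ h)
        rw [this]
    · intro h
      have h1 : e ⟨a, Set.mem_univ a⟩ = ⟨b, Set.mem_univ b⟩ := Equiv.swap_apply_left _ _
      have h2 : e ⟨a, Set.mem_univ a⟩ = ⟨a, Set.mem_univ a⟩ := h
      rw [h1] at h2
      exact hab (congrArg Subtype.val h2).symm

lemma dSym_ge (w : ℕ) (hw : 2 ≤ w) : (1 - 1 / (w : ℝ)) ^ (w - 1) ≤ dSym w := by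
  obtain ⟨P, i1, i2, h1, h2⟩ := exists_sym w hw
  unfold dSym
  refine le_csInf ⟨balance P, P, i1, i2, h1, h2, rfl⟩ ?_
  rintro d ⟨Q, j1, j2, h3, h4, rfl⟩
  exact ge_pow w h3 h4

lemma dSym_le (w : ℕ) (hw : 2 ≤ w) : dSym w ≤ 1 / 2 := by
  obtain ⟨P, i1, i2, h1, h2⟩ := exists_sym w hw
  have : Nonempty P := nonempty_of_width (by omega) h1
  have hb : BddBelow {d : ℝ | ∃ (P : Type) (_ : Fintype P) (_ : PartialOrder P), HasWidth P w ∧
      Symmetric P ∧ balance P = d} := by
    refine ⟨(1 - 1 / (w : ℝ)) ^ (w - 1), ?_⟩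
    rintro d ⟨Q, j1, j2, h3, h4, rfl⟩
    exact ge_pow w h3 h4
  exact (csInf_le hb ⟨P, i1, i2, h1, h2, rfl⟩).trans balance_le_half

lemma balance_nonneg {P : Type} [Fintype P] [PartialOrder P] [Nonempty P] : 0 ≤ balance P := by
  obtain ⟨x⟩ := (inferInstance : Nonempty P)
  refine le_trans ?_ (le_balance x x)
  rw [min_self]
  unfold prob
  positivity

lemma all_eq_rig (w : ℕ) (hw : 2 ≤ w) (h : dAll w < (1 - 1 / (w : ℝ)) ^ (w - 1)) :
    dAll w = dRig w := by
  have hne : {d : ℝ | ∃ (P : Type) (_ : Fintype P) (_ : PartialOrder P), HasWidth P w ∧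
      balance P = d}.Nonempty := by
    obtain ⟨P, i1, i2, h1, h2⟩ := exists_sym w hw
    exact ⟨_, P, i1, i2, h1, rfl⟩
  have hb0 : BddBelow {d : ℝ | ∃ (P : Type) (_ : Fintype P) (_ : PartialOrder P),
      HasWidth P w ∧ balance P = d} := by
    refine ⟨0, ?_⟩
    rintro d ⟨Q, j1, j2, h3, rfl⟩
    have : Nonempty Q := nonempty_of_width (by omega) h3
    exact balance_nonneg
  have hb1 : BddBelow {d : ℝ | ∃ (P : Type) (_ : Fintype P) (_ : PartialOrder P),
      HasWidth P w ∧ ¬ Symmetric P ∧ balance P = d} := by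
    refine ⟨0, ?_⟩
    rintro d ⟨Q, j1, j2, h3, -, rfl⟩
    have : Nonempty Q := nonempty_of_width (by omega) h3
    exact balance_nonneg
  obtain ⟨d, ⟨P, i1, i2, h1, rfl⟩, h2⟩ := exists_lt_of_csInf_lt hne h
  have hr : ¬ Symmetric P := fun hs => absurd (ge_pow w h1 hs) (not_le.2 h2)
  have hle : dRig w ≤ balance P := csInf_le hb1 ⟨P, i1, i2, h1, hr, rfl⟩
  apply le_antisymm
  · unfold dRig
    refine le_csInf ⟨balance P, P, i1, i2, h1, hr, rfl⟩ ?_
    rintro d ⟨Q, j1, j2, h3, -, rfl⟩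
    exact csInf_le hb0 ⟨Q, j1, j2, h3, rfl⟩
  · unfold dAll
    refine le_csInf hne ?_
    rintro d ⟨Q, j1, j2, h3, rfl⟩
    by_cases hs : Symmetric Q
    · exact (hle.trans h2.le).trans (ge_pow w h3 hs)
    · exact csInf_le hb1 ⟨Q, j1, j2, h3, hs, rfl⟩

theorem result :
    -- every symmetric poset of width `w`
    (∀ (P : Type) [Fintype P] [PartialOrder P] (w : ℕ), HasWidth P w → Symmetric P →
      (∃ p : ℕ, p.Prime ∧ p ≤ w ∧ (1 - 1 / (p : ℝ)) ^ (p - 1) ≤ balance P) ∧
      (1 - 1 / (w : ℝ)) ^ (w - 1) ≤ balance P ∧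
      (w = 2 → balance P = 1 / 2)) ∧
    -- the minimal balance constants of the symmetric posets
    dSym 2 = 1 / 2 ∧
    (∀ w : ℕ, 2 ≤ w → 1 / 3 < Real.exp (-1) ∧ Real.exp (-1) < (1 - 1 / (w : ℝ)) ^ (w - 1) ∧
      (1 - 1 / (w : ℝ)) ^ (w - 1) ≤ dSym w ∧ dSym w ≤ dSym 2) ∧
    -- `δ_w` is decided by the posets without symmetries if it is small
    (∀ w : ℕ, 2 ≤ w → dAll w < (1 - 1 / (w : ℝ)) ^ (w - 1) → dAll w = dRig w) := by
  have h2 : dSym 2 = 1 / 2 := by
    refine le_antisymm (dSym_le 2 le_rfl) ?_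
    have h := dSym_ge 2 le_rfl
    norm_num at h ⊢
    exact h
  refine ⟨fun P _ _ w hw hs => ⟨exists_prime w hw hs, ge_pow w hw hs, ?_⟩, h2, ?_, all_eq_rig⟩
  · rintro rfl
    exact eq_half hw hs
  · intro w hw
    refine ⟨third_lt, exp_lt w hw, dSym_ge w hw, ?_⟩
    rw [h2]
    exact dSym_le w hw

end Pool.Agent.Results.MP_c890a7_co.SymmetricByWidth
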